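import Pool.Agent.H1.OCV.GEOD

/-!
# Case B of GEO: two pure lemmas

`b1`: two degenerate samples of one line have the same normal. `b2`: transversality.
-/

set_option autoImplicit false

namespace Pool.OCV.B12

open Finset Real
open Pool.Agent.H49.Ent Pool.Agent.H32.Dense Pool.STK Pool.KAF
open Pool.OCM Pool.OCV

/-- Unit covectors in the maximum norm. -/
def U (m : Fin 2 → ℝ) : Prop := (∀ i, |m i| ≤ 1) ∧ ∃ i, |m i| = 1

theorem split (m m' : Fin 2 → ℝ) (hm : U m) (hm' : U m') (w : Fin 2 → ℝ) (R : ℝ)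
    (hw : ∀ i, |w i| ≤ R) : |∑ i, m i * w i| ≤ |∑ i, m' i * w i| +
      |m 0 * m' 1 - m 1 * m' 0| * R := by
  have hR : 0 ≤ R := (abs_nonneg _).trans (hw 0)
  obtain ⟨i, hi⟩ := hm'.2
  rw [Fin.sum_univ_two, Fin.sum_univ_two]
  set D := m 0 * m' 1 - m 1 * m' 0 with hD
  set s := m' 0 * w 0 + m' 1 * w 1 with hs
  fin_cases i
  · simp only [Fin.zero_eta] at hi
    have h2 : (m 0 * w 0 + m 1 * w 1) * m' 0 = m 0 * s - D * w 1 := by
      rw [hs, hD]
      ring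
    have h3 : |m 0 * w 0 + m 1 * w 1| = |m 0 * s - D * w 1| := by
      rw [← h2, abs_mul, hi, mul_one]
    rw [h3]
    refine (abs_sub _ _).trans (add_le_add ?_ ?_)
    · rw [abs_mul]
      exact mul_le_of_le_one_left (abs_nonneg _) (hm.1 0)
    · rw [abs_mul]
      exact mul_le_mul_of_nonneg_left (hw 1) (abs_nonneg _)
  · simp only [Fin.mk_one] at hi
    have h2 : (m 0 * w 0 + m 1 * w 1) * m' 1 = m 1 * s + D * w 0 := by
      rw [hs, hD]
      ring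
    have h3 : |m 0 * w 0 + m 1 * w 1| = |m 1 * s + D * w 0| := by
      rw [← h2, abs_mul, hi, mul_one]
    rw [h3]
    refine (abs_add_le _ _).trans (add_le_add ?_ ?_)
    · rw [abs_mul]
      exact mul_le_of_le_one_left (abs_nonneg _) (hm.1 1)
    · rw [abs_mul]
      exact mul_le_mul_of_nonneg_left (hw 0) (abs_nonneg _)

theorem par (m m' v : Fin 2 → ℝ) (hm : U m) (hm' : U m') (i : Fin 2) :
    |m 0 * m' 1 - m 1 * m' 0| * |v i| ≤ |∑ i, m i * v i| + |∑ i, m' i * v i| := by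
  rw [Fin.sum_univ_two, Fin.sum_univ_two, ← abs_mul]
  fin_cases i
  · simp only [Fin.zero_eta]
    have e : (m 0 * m' 1 - m 1 * m' 0) * v 0 =
        (m 0 * v 0 + m 1 * v 1) * m' 1 - (m' 0 * v 0 + m' 1 * v 1) * m 1 := by ring
    rw [e]
    refine (abs_sub _ _).trans (add_le_add ?_ ?_)
    · rw [abs_mul]
      exact mul_le_of_le_one_right (abs_nonneg _) (hm'.1 1)
    · rw [abs_mul]
      exact mul_le_of_le_one_right (abs_nonneg _) (hm.1 1)
  · simp only [Fin.mk_one]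
    have e : (m 0 * m' 1 - m 1 * m' 0) * v 1 =
        (m' 0 * v 0 + m' 1 * v 1) * m 0 - (m 0 * v 0 + m 1 * v 1) * m' 0 := by ring
    rw [e, add_comm |m 0 * v 0 + m 1 * v 1|]
    refine (abs_sub _ _).trans (add_le_add ?_ ?_)
    · rw [abs_mul]
      exact mul_le_of_le_one_right (abs_nonneg _) (hm.1 0)
    · rw [abs_mul]
      exact mul_le_of_le_one_right (abs_nonneg _) (hm'.1 0)

/-- A sample outside several events. -/
theorem exists_not {Om : Type} [Fintype Om] {q : Om → ℝ} (hq : IsLaw q) (E₁ E₂ F : Set Om)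
    (h : Pr q E₁ + Pr q E₂ < Pr q F) : ∃ r, r ∈ F ∧ r ∉ E₁ ∧ r ∉ E₂ := by
  by_contra hcon
  push Not at hcon
  have h2 : F ⊆ E₁ ∪ E₂ := by
    intro r hr
    by_cases h1 : r ∈ E₁
    · exact Or.inl h1
    · exact Or.inr (hcon r hr h1)
  have := Pool.Agent.H1.OCV.Pr_union hq.nonneg E₁ E₂ F h2
  linarith

theorem Pr_compl {Om : Type} [Fintype Om] {q : Om → ℝ} (hq : IsLaw q) (E : Set Om) :
    Pr q {r | r ∉ E} = 1 - Pr q E := by
  classical
  rw [Pool.Agent.H1.OCV.Pr_eq, Pool.Agent.H1.OCV.Pr_eq, ← hq.sum_one, ← Finset.sum_sub_distrib]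
  refine Finset.sum_congr rfl fun r _ => ?_
  by_cases h : r ∈ E
  · rw [if_pos h, if_neg (fun h' => h' h), sub_self]
  · rw [if_neg h, if_pos (by exact h), sub_zero]

/-- **(B1)** Two degenerate samples of one line: the difference of the slopes is nearly orthogonal
to the normal. -/
theorem b1 {Om : Type} [Fintype Om] {q : Om → ℝ} (hq : IsLaw q) (S : Om → Fin 2 → ℝ)
    (hS : ∀ a i, |S a i| ≤ 1) (s s' : Fin 2 → ℝ) (_hs : ∀ i, |s i| ≤ 1) (hs' : ∀ i, |s' i| ≤ 1)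
    (m m' : Fin 2 → ℝ) (hm : (∀ i, |m i| ≤ 1) ∧ ∃ i, |m i| = 1)
    (hm' : (∀ i, |m' i| ≤ 1) ∧ ∃ i, |m' i| = 1) (p0 e0 e1 : ℝ) (h0 : 0 < p0) (he0 : 0 < e0)
    (he1 : 0 < e1) (he01 : e0 ≤ 1)
    (h1 : Pr q {r | e1 ≤ |∑ i, m i * (S r i - s i)|} < p0 / 16)
    (h2 : Pr q {r | e1 ≤ |∑ i, m' i * (S r i - s' i)|} < p0 / 16)
    (h3 : Pr q {r | Pr q {r' | ∃ i, e0 ≤ |S r' i - S r i|} < p0} ≤ 1 / 2) (hp : p0 ≤ 1) :
    |∑ i, m i * (s' i - s i)| ≤ 10 * e1 / e0 := by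
  set E₁ : Set Om := {r | e1 ≤ |∑ i, m i * (S r i - s i)|} with hE₁
  set E₂ : Set Om := {r | e1 ≤ |∑ i, m' i * (S r i - s' i)|} with hE₂
  set G : Set Om := {r | Pr q {r' | ∃ i, e0 ≤ |S r' i - S r i|} < p0} with hG
  -- a good sample
  obtain ⟨r, hr, hr1, hr2⟩ := exists_not hq E₁ E₂ {r | r ∉ G} (by
    rw [Pr_compl hq]
    linarith)
  have hr' : p0 ≤ Pr q {r' | ∃ i, e0 ≤ |S r' i - S r i|} := not_lt.1 hr
  obtain ⟨r', hrr, hr1', hr2'⟩ := exists_not hq E₁ E₂ {r' | ∃ i, e0 ≤ |S r' i - S r i|} (by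
    linarith)
  obtain ⟨i, hi⟩ := hrr
  have a1 : |∑ i, m i * (S r i - s i)| < e1 := not_le.1 hr1
  have a2 : |∑ i, m' i * (S r i - s' i)| < e1 := not_le.1 hr2
  have a3 : |∑ i, m i * (S r' i - s i)| < e1 := not_le.1 hr1'
  have a4 : |∑ i, m' i * (S r' i - s' i)| < e1 := not_le.1 hr2'
  set v : Fin 2 → ℝ := fun i => S r' i - S r i with hv
  have b1 : |∑ i, m i * v i| ≤ 2 * e1 := by
    have e : ∑ i, m i * v i = ∑ i, m i * (S r' i - s i) - ∑ i, m i * (S r i - s i) := by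
      rw [← Finset.sum_sub_distrib]
      exact Finset.sum_congr rfl fun i _ => by simp only [hv]; ring
    rw [e]
    refine (abs_sub _ _).trans (by linarith)
  have b2 : |∑ i, m' i * v i| ≤ 2 * e1 := by
    have e : ∑ i, m' i * v i = ∑ i, m' i * (S r' i - s' i) - ∑ i, m' i * (S r i - s' i) := by
      rw [← Finset.sum_sub_distrib]
      exact Finset.sum_congr rfl fun i _ => by simp only [hv]; ring
    rw [e]
    refine (abs_sub _ _).trans (by linarith)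
  have hD : |m 0 * m' 1 - m 1 * m' 0| ≤ 4 * e1 / e0 := by
    rw [le_div_iff₀ he0]
    have c1 := par m m' v hm hm' i
    have c2 : |m 0 * m' 1 - m 1 * m' 0| * e0 ≤ |m 0 * m' 1 - m 1 * m' 0| * |v i| :=
      mul_le_mul_of_nonneg_left hi (abs_nonneg _)
    linarith
  have c3 := split m m' hm hm' (fun i => S r i - s' i) 2 (fun i => by
    refine (abs_sub _ _).trans ?_
    have := hS r i
    have := hs' i
    linarith)
  have e : ∑ i, m i * (s' i - s i) = ∑ i, m i * (S r i - s i) - ∑ i, m i * (S r i - s' i) := by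
    rw [← Finset.sum_sub_distrib]
    exact Finset.sum_congr rfl fun i _ => by ring
  rw [e]
  have h4 : e1 ≤ e1 / e0 := by
    rw [le_div_iff₀ he0]
    nlinarith
  have h5 : 4 * e1 / e0 = 4 * (e1 / e0) := by ring
  have h6 : 10 * e1 / e0 = 10 * (e1 / e0) := by ring
  rw [h5] at hD
  rw [h6]
  refine (abs_sub _ _).trans ?_
  linarith

/-- **(B2)** Transversality. -/
theorem b2 {Om : Type} [Fintype Om] {q : Om → ℝ} (hq : IsLaw q) (S : Om → Fin 2 → ℝ)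
    (hS : ∀ a i, |S a i| ≤ 1) (s : Fin 2 → ℝ) (hs : ∀ i, |s i| ≤ 1)
    (m m' : Fin 2 → ℝ) (hm : (∀ i, |m i| ≤ 1) ∧ ∃ i, |m i| = 1)
    (hm' : (∀ i, |m' i| ≤ 1) ∧ ∃ i, |m' i| = 1) (p0 e0 e1 : ℝ) (h0 : 0 < p0)
    (_he1 : 0 < e1) (he01 : 2 * e1 ≤ e0)
    (h1 : p0 / 2 ≤ Pr q {r | e0 ≤ |∑ i, m i * (S r i - s i)|})
    (h2 : Pr q {r | e1 ≤ |∑ i, m' i * (S r i - s i)|} < p0 / 16) :
    e0 / 4 ≤ |m 0 * m' 1 - m 1 * m' 0| := by
  obtain ⟨r, hr, hr1, -⟩ := exists_not hq {r | e1 ≤ |∑ i, m' i * (S r i - s i)|} ∅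
    {r | e0 ≤ |∑ i, m i * (S r i - s i)|} (by
    have : Pr q (∅ : Set Om) = 0 := by
      classical
      rw [Pool.Agent.H1.OCV.Pr_eq]
      simp
    linarith)
  have a1 : e0 ≤ |∑ i, m i * (S r i - s i)| := hr
  have a2 : |∑ i, m' i * (S r i - s i)| < e1 := not_le.1 hr1
  have c3 := split m m' hm hm' (fun i => S r i - s i) 2 (fun i => by
    refine (abs_sub _ _).trans ?_
    have := hS r i
    have := hs i
    linarith)
  linarith

end Pool.OCV.B12
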