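import Mathlib

/-!
# Coordinates in the plane: two nearly fixed transversal directions
-/

set_option autoImplicit false

namespace Pool.Agent.H1.OCV

/-- The exterior product in the plane. -/
def wd (p q : Fin 2 → ℝ) : ℝ := p 0 * q 1 - p 1 * q 0

/-- The maximum norm. -/
noncomputable def nm (p : Fin 2 → ℝ) : ℝ := max |p 0| |p 1|

theorem le_nm (p : Fin 2 → ℝ) (i : Fin 2) : |p i| ≤ nm p := by
  fin_cases i
  · exact le_max_left _ _
  · exact le_max_right _ _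

theorem nm_le {p : Fin 2 → ℝ} {r : ℝ} (h : ∀ i, |p i| ≤ r) : nm p ≤ r := max_le (h 0) (h 1)

theorem nm_nonneg (p : Fin 2 → ℝ) : 0 ≤ nm p := (abs_nonneg _).trans (le_nm p 0)

/-- The components along `n` and along the orthogonal vector. -/
theorem comp (n p : Fin 2 → ℝ) (hn : ∀ i, |n i| ≤ 1) (hn1 : ∃ i, |n i| = 1) :
    ∃ α β : ℝ, p 0 = -α * n 1 + β * n 0 ∧ p 1 = α * n 0 + β * n 1 ∧
      |β| ≤ |∑ i, n i * p i| ∧ |α| ≤ nm p + |β| ∧ nm p ≤ |α| + |β| := by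
  have h0 := hn 0
  have h1 := hn 1
  have hN : 1 ≤ n 0 ^ 2 + n 1 ^ 2 := by
    obtain ⟨i, hi⟩ := hn1
    fin_cases i
    · have : n 0 ^ 2 = 1 := by
        rw [← sq_abs]
        simp only [Fin.zero_eta] at hi
        rw [hi, one_pow]
      nlinarith only [this, sq_nonneg (n 1)]
    · have : n 1 ^ 2 = 1 := by
        rw [← sq_abs]
        simp only [Fin.mk_one] at hi
        rw [hi, one_pow]
      nlinarith only [this, sq_nonneg (n 0)]
  have hN0 : 0 < n 0 ^ 2 + n 1 ^ 2 := by linarith only [hN]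
  set α := (n 0 * p 1 - n 1 * p 0) / (n 0 ^ 2 + n 1 ^ 2) with hα
  set β := (n 0 * p 0 + n 1 * p 1) / (n 0 ^ 2 + n 1 ^ 2) with hβ
  have e0 : p 0 = -α * n 1 + β * n 0 := by
    rw [hα, hβ]
    field_simp
    ring
  have e1 : p 1 = α * n 0 + β * n 1 := by
    rw [hα, hβ]
    field_simp
    ring
  have hb : |β| ≤ |∑ i, n i * p i| := by
    rw [Fin.sum_univ_two, hβ, abs_div, abs_of_pos hN0]
    exact div_le_self (abs_nonneg _) hN
  refine ⟨α, β, e0, e1, hb, ?_, ?_⟩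
  · obtain ⟨i, hi⟩ := hn1
    fin_cases i
    · simp only [Fin.zero_eta] at hi
      have h2 : α * n 0 = p 1 - β * n 1 := by linarith only [e1]
      have h3 : |α| = |p 1 - β * n 1| := by
        rw [← h2, abs_mul, hi, mul_one]
      rw [h3]
      refine (abs_sub _ _).trans ?_
      rw [abs_mul]
      have := le_nm p 1
      nlinarith only [this, h1, abs_nonneg β, abs_nonneg (n 1)]
    · simp only [Fin.mk_one] at hi
      have h2 : α * n 1 = β * n 0 - p 0 := by linarith only [e0]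
      have h3 : |α| = |β * n 0 - p 0| := by
        rw [← h2, abs_mul, hi, mul_one]
      rw [h3]
      refine (abs_sub _ _).trans ?_
      rw [abs_mul]
      have := le_nm p 0
      nlinarith only [this, h0, abs_nonneg β, abs_nonneg (n 0)]
  · refine max_le ?_ ?_
    · rw [e0]
      refine (abs_add_le _ _).trans ?_
      rw [abs_mul, abs_mul, abs_neg]
      nlinarith only [h0, h1, abs_nonneg β, abs_nonneg (n 0), abs_nonneg α, abs_nonneg (n 1)]
    · rw [e1]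
      refine (abs_add_le _ _).trans ?_
      rw [abs_mul, abs_mul]
      nlinarith only [h0, h1, abs_nonneg β, abs_nonneg (n 0), abs_nonneg α, abs_nonneg (n 1)]

/-- Main estimate: the exterior products. -/
theorem core {A ε α α' β β' γ δ w u₁ u₂ : ℝ} (hA : 0 < A) (hA1 : A ≤ 1) (hε : 0 ≤ ε)
    (hε1 : 1024 * ε ≤ A ^ 3) (hw : A ≤ |w|) (hw2 : |w| ≤ 2) (h1 : |u₁| ≤ 2) (h2 : |u₂| ≤ 2)
    (hα : A / 2 ≤ |α|) (hα' : A / 2 ≤ |α'|) (hβ : |β| ≤ ε) (hβ' : |β'| ≤ ε) (hδ : |δ| ≤ ε)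
    (hγ : |γ| ≤ |α| + 2 * ε) :
    5 / 8 * (|α| * |α'| * |w|) ≤ |α * α' * w + α * β' * u₁ + β * α' * u₂ + β * β' * w| ∧
    |γ * α' * w + γ * β' * u₁ + δ * α' * u₂ + δ * β' * w| ≤ 5 / 2 * (|α| * |α'| * |w|) ∧
    2 * ε * (|α| + |γ|) ≤ 5 / 2 * (|α| * |α'| * |w|) := by
  have a0 : 0 < |α| := by linarith only [hA, hα]
  have a0' : 0 < |α'| := by linarith only [hA, hα']
  have w0 : 0 < |w| := by linarith only [hA, hw]
  have hA2 : A ^ 3 ≤ A ^ 2 := by nlinarith only [hA1, sq_nonneg A]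
  have hA3 : A ^ 2 ≤ A := by nlinarith only [hA, hA1]
  have q1 : A ^ 2 / 2 ≤ |α'| * |w| := by nlinarith only [hA, hw, hα']
  have q2 : A ^ 2 / 2 ≤ |α| * |w| := by nlinarith only [hA, hw, hα]
  set P := |α| * |α'| * |w| with hP
  have e1 : 512 * ε * |α| ≤ P := by
    have : 512 * ε ≤ |α'| * |w| := by nlinarith only [hε1, hA2, q1]
    calc 512 * ε * |α| ≤ |α'| * |w| * |α| := mul_le_mul_of_nonneg_right this a0.le
      _ = P := by rw [hP]; ring
  have e2 : 512 * ε * |α'| ≤ P := by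
    have : 512 * ε ≤ |α| * |w| := by nlinarith only [hε1, hA2, q2]
    calc 512 * ε * |α'| ≤ |α| * |w| * |α'| := mul_le_mul_of_nonneg_right this a0'.le
      _ = P := by rw [hP]; ring
  have e3 : 2 * ε * ε ≤ P / 8 := by
    have h3 : 2 * ε ≤ |α| := by nlinarith only [hε1, hα, a0, hA2, hA3]
    nlinarith only [e1, hA, hε, hε1, hα, hA2, hA3]
  have hγ2 : |γ| ≤ 2 * |α| := by nlinarith only [hε1, hα, hγ, a0, hA2, hA3]
  have t1 : |α * β' * u₁| ≤ P / 8 := by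
    rw [abs_mul, abs_mul]
    have h3 : |α| * |β'| ≤ |α| * ε := mul_le_mul_of_nonneg_left hβ' a0.le
    have h4 : |α| * |β'| * |u₁| ≤ |α| * ε * 2 :=
      mul_le_mul h3 h1 (abs_nonneg _) (by positivity)
    nlinarith only [e1, e3, h4, hε]
  have t2 : ∀ x : ℝ, |x| ≤ ε → |x * α' * u₂| ≤ P / 8 := by
    intro x hx
    rw [abs_mul, abs_mul]
    have h3 : |x| * |α'| ≤ ε * |α'| := mul_le_mul_of_nonneg_right hx a0'.le
    have h4 : |x| * |α'| * |u₂| ≤ ε * |α'| * 2 :=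
      mul_le_mul h3 h2 (abs_nonneg _) (by positivity)
    nlinarith only [e2, e3, h4, hε]
  have t3 : ∀ x : ℝ, |x| ≤ ε → |x * β' * w| ≤ P / 8 := by
    intro x hx
    rw [abs_mul, abs_mul]
    have h3 : |x| * |β'| ≤ ε * ε := mul_le_mul hx hβ' (abs_nonneg _) hε
    have h4 : |x| * |β'| * |w| ≤ ε * ε * 2 :=
      mul_le_mul h3 hw2 (abs_nonneg _) (by positivity)
    nlinarith only [e3, h4]
  have t4 : |γ * β' * u₁| ≤ P / 8 := by
    rw [abs_mul, abs_mul]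
    have h3 : |γ| * |β'| ≤ 2 * |α| * ε := mul_le_mul hγ2 hβ' (abs_nonneg _) (by positivity)
    have h4 : |γ| * |β'| * |u₁| ≤ 2 * |α| * ε * 2 :=
      mul_le_mul h3 h1 (abs_nonneg _) (by positivity)
    nlinarith only [e1, e3, h4, hε]
  have m1 : |α * α' * w| = P := by rw [abs_mul, abs_mul]
  have m2 : |γ * α' * w| ≤ 2 * P := by
    rw [abs_mul, abs_mul]
    calc |γ| * |α'| * |w| ≤ 2 * |α| * |α'| * |w| :=
          mul_le_mul_of_nonneg_right (mul_le_mul_of_nonneg_right hγ2 a0'.le) w0.le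
      _ = 2 * P := by rw [hP]; ring
  refine ⟨?_, ?_, ?_⟩
  · have h3 := t2 β hβ
    have h4 := t3 β hβ
    have h5 : |α * α' * w| ≤ |α * α' * w + α * β' * u₁ + β * α' * u₂ + β * β' * w| +
        |α * β' * u₁| + |β * α' * u₂| + |β * β' * w| := by
      have h6 : α * α' * w = (α * α' * w + α * β' * u₁ + β * α' * u₂ + β * β' * w) +
        -(α * β' * u₁) + -(β * α' * u₂) + -(β * β' * w) := by ring
      conv_lhs => rw [h6]
      refine (abs_add_le _ _).trans ?_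
      rw [abs_neg]
      refine add_le_add ((abs_add_le _ _).trans ?_) le_rfl
      rw [abs_neg]
      refine add_le_add ((abs_add_le _ _).trans ?_) le_rfl
      rw [abs_neg]
    rw [m1] at h5
    linarith only [t1, h3, h4, h5]
  · have h3 := t2 δ hδ
    have h4 := t3 δ hδ
    have h5 : |γ * α' * w + γ * β' * u₁ + δ * α' * u₂ + δ * β' * w| ≤
        |γ * α' * w| + |γ * β' * u₁| + |δ * α' * u₂| + |δ * β' * w| := by
      refine (abs_add_le _ _).trans (add_le_add ((abs_add_le _ _).trans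
        (add_le_add (abs_add_le _ _) le_rfl)) le_rfl)
    have hP0 : 0 ≤ P := by positivity
    linarith only [t4, m2, h3, h4, h5, hP0]
  · have hP0 : 0 ≤ P := by positivity
    nlinarith only [e1, e3, hP0, hε, hγ]

/-- The coordinates of a sample of the first line. -/
theorem coords {A ε : ℝ} (hA : 0 < A) (hA1 : A ≤ 1) (hε : 0 ≤ ε) (hε1 : 1024 * ε ≤ A ^ 3)
    (n n' p q v : Fin 2 → ℝ) (hn : ∀ i, |n i| ≤ 1) (hn1 : ∃ i, |n i| = 1)
    (hn' : ∀ i, |n' i| ≤ 1) (hn1' : ∃ i, |n' i| = 1) (hw : A ≤ |wd n n'|)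
    (hp : |∑ i, n i * p i| ≤ ε) (hp1 : A ≤ nm p) (hq : |∑ i, n' i * q i| ≤ ε) (hq1 : A ≤ nm q)
    (hv : |∑ i, n i * v i| ≤ ε) (hv1 : nm v ≤ nm p) :
    A ^ 3 / 8 ≤ |wd p q| ∧ |wd v q| ≤ 4 * |wd p q| ∧ |wd p v| ≤ 4 * |wd p q| := by
  obtain ⟨α, β, p0, p1, hβ, hα1, hα2⟩ := comp n p hn hn1
  obtain ⟨α', β', q0, q1, hβ', hα1', hα2'⟩ := comp n' q hn' hn1'
  obtain ⟨γ, δ, v0, v1, hδ, hγ1, hγ2⟩ := comp n v hn hn1
  have b1 : |β| ≤ ε := hβ.trans hp
  have b2 : |β'| ≤ ε := hβ'.trans hq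
  have b3 : |δ| ≤ ε := hδ.trans hv
  have hA3 : A ^ 3 ≤ A := by
    have h1 : A ^ 2 ≤ 1 := by nlinarith only [hA1, hA]
    have h2 : A ^ 3 = A * A ^ 2 := by ring
    rw [h2]
    nlinarith only [hA1, hA]
  have eA : ε ≤ A / 2 := by linarith only [hA, hε1, hA3]
  have c1 : A / 2 ≤ |α| := by linarith only [hA, hε1, hp, hp1, hβ, hα2, hA3]
  have c2 : A / 2 ≤ |α'| := by linarith only [hA, hε1, hq, hq1, hβ', hα2', hA3]
  have c3 : |γ| ≤ |α| + 2 * ε := by linarith only [hp, hv, hv1, hβ, hα2, hδ, hγ1]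
  have nb : ∀ a b c d : ℝ, |a| ≤ 1 → |b| ≤ 1 → |c| ≤ 1 → |d| ≤ 1 → |a * b + c * d| ≤ 2 := by
    intro a b c d h1 h2 h3 h4
    refine (abs_add_le _ _).trans ?_
    rw [abs_mul, abs_mul]
    nlinarith only [h2, h4, h1, h3, abs_nonneg a, abs_nonneg b, abs_nonneg c, abs_nonneg d]
  have hw2 : |wd n n'| ≤ 2 := by
    have := nb (n 0) (n' 1) (-n 1) (n' 0) (hn 0) (hn' 1) (by rw [abs_neg]; exact hn 1) (hn' 0)
    have e : wd n n' = n 0 * n' 1 + -n 1 * n' 0 := by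
      unfold wd
      ring
    rwa [e]
  set s := n 0 * n' 0 + n 1 * n' 1 with hs
  have hs2 : |s| ≤ 2 := nb (n 0) (n' 0) (n 1) (n' 1) (hn 0) (hn' 0) (hn 1) (hn' 1)
  obtain ⟨k1, k2, k3⟩ := core (u₁ := -s) (u₂ := s) hA hA1 hε hε1 hw hw2 (by rwa [abs_neg]) hs2
    c1 c2 b1 b2 b3 c3
  have e1 : wd p q = α * α' * wd n n' + α * β' * -s + β * α' * s + β * β' * wd n n' := by
    unfold wd
    rw [p0, p1, q0, q1, hs]
    ring
  have e2 : wd v q = γ * α' * wd n n' + γ * β' * -s + δ * α' * s + δ * β' * wd n n' := by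
    unfold wd
    rw [v0, v1, q0, q1, hs]
    ring
  have e3 : wd p v = (β * γ - α * δ) * (n 0 ^ 2 + n 1 ^ 2) := by
    unfold wd
    rw [p0, p1, v0, v1]
    ring
  rw [← e1] at k1
  rw [← e2] at k2
  have hP : A ^ 3 / 4 ≤ |α| * |α'| * |wd n n'| := by
    have h1 : A ^ 2 / 4 ≤ |α| * |α'| := by nlinarith only [hA, hε1, hp, hp1, hq, hq1, hβ, hα2, hβ', hα2', hA3, hε, hα1', hα1]
    nlinarith only [hw, hA, h1, abs_nonneg (wd n n')]
  refine ⟨by linarith only [hε, hε1, k1, hP], by linarith only [k1, k2], ?_⟩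
  have h4 : |wd p v| ≤ 2 * ε * (|α| + |γ|) := by
    rw [e3, abs_mul]
    have h5 : |n 0 ^ 2 + n 1 ^ 2| ≤ 2 := by
      have := nb (n 0) (n 0) (n 1) (n 1) (hn 0) (hn 0) (hn 1) (hn 1)
      have e : n 0 ^ 2 + n 1 ^ 2 = n 0 * n 0 + n 1 * n 1 := by ring
      rwa [e]
    have h6 : |β * γ - α * δ| ≤ ε * (|α| + |γ|) := by
      refine (abs_sub _ _).trans ?_
      rw [abs_mul, abs_mul]
      have h7 : |β| * |γ| ≤ ε * |γ| := mul_le_mul_of_nonneg_right b1 (abs_nonneg _)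
      have h8 : |α| * |δ| ≤ |α| * ε := mul_le_mul_of_nonneg_left b3 (abs_nonneg _)
      nlinarith only [h7, h8]
    calc |β * γ - α * δ| * |n 0 ^ 2 + n 1 ^ 2| ≤ ε * (|α| + |γ|) * 2 :=
          mul_le_mul h6 h5 (abs_nonneg _) (by positivity)
      _ = 2 * ε * (|α| + |γ|) := by ring
  linarith only [k1, k3, h4]

end Pool.Agent.H1.OCV
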