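import Pool.Agent.H98.OCV.Stmts
import Pool.Agent.H1.OCV.Geo

/-!
# GEOD: two lines with transversal directions

Row GEOD of the board ocv (helper98).
-/

set_option autoImplicit false

namespace Pool.Agent.H1.OCV

open Finset Real
open Pool.Agent.H49.Ent Pool.Agent.H32.Dense Pool.STK Pool.KAF
open Pool.OCM Pool.OCV

section Prob

variable {S T : Type} [Fintype S] [Fintype T]

open Classical in
theorem Pr_eq (μ : S → ℝ) (E : Set S) : Pr μ E = ∑ s, if s ∈ E then μ s else 0 := by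
  unfold Pr law
  refine Finset.sum_congr rfl fun ω _ => ?_
  by_cases h : ω ∈ E
  · simp [h]
  · simp [h]

theorem Pr_mono {μ : S → ℝ} (hμ : ∀ s, 0 ≤ μ s) {E E' : Set S} (h : E ⊆ E') :
    Pr μ E ≤ Pr μ E' := by
  classical
  rw [Pr_eq, Pr_eq]
  refine Finset.sum_le_sum fun s _ => ?_
  by_cases h1 : s ∈ E
  · rw [if_pos h1, if_pos (h h1)]
  · rw [if_neg h1]
    split_ifs
    · exact hμ s
    · exact le_rfl

theorem Pr_union {μ : S → ℝ} (hμ : ∀ s, 0 ≤ μ s) (E E' F : Set S) (h : F ⊆ E ∪ E') :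
    Pr μ F ≤ Pr μ E + Pr μ E' := by
  classical
  rw [Pr_eq, Pr_eq, Pr_eq, ← Finset.sum_add_distrib]
  refine Finset.sum_le_sum fun s _ => ?_
  have h0 := hμ s
  by_cases h1 : s ∈ F
  · rw [if_pos h1]
    rcases h h1 with h2 | h2
    · rw [if_pos h2]
      split_ifs <;> linarith
    · rw [if_pos h2]
      split_ifs <;> linarith
  · rw [if_neg h1]
    split_ifs <;> linarith

/-- Quantiles. -/
theorem quant {μ : S → ℝ} (hμ : ∀ s, 0 ≤ μ s) (f : S → ℝ) (q t : ℝ) (hq : 0 < q)
    (h : q ≤ Pr μ {s | t ≤ f s}) :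
    ∃ M, t ≤ M ∧ q ≤ Pr μ {s | M ≤ f s} ∧ Pr μ {s | M < f s} ≤ q := by
  classical
  set V : Finset ℝ := (insert t (univ.image f)).filter fun y => t ≤ y ∧ q ≤ Pr μ {s | y ≤ f s}
    with hV
  have ht : t ∈ V := by
    rw [hV, Finset.mem_filter]
    exact ⟨Finset.mem_insert_self _ _, le_rfl, h⟩
  obtain ⟨M, hM, hmax⟩ := Finset.exists_max_image V id ⟨t, ht⟩
  rw [hV, Finset.mem_filter] at hM
  refine ⟨M, hM.2.1, hM.2.2, ?_⟩
  by_contra hc
  push Not at hc
  have hne : ∃ s, M < f s := by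
    by_contra hn
    push Not at hn
    have : Pr μ {s | M < f s} = 0 := by
      rw [Pr_eq]
      refine Finset.sum_eq_zero fun s _ => ?_
      rw [if_neg]
      exact not_lt.2 (hn s)
    linarith
  obtain ⟨s₀, hs₀⟩ := hne
  obtain ⟨s', hs', hmin⟩ := Finset.exists_min_image (univ.filter fun s => M < f s) f
    ⟨s₀, by simp [hs₀]⟩
  rw [Finset.mem_filter] at hs'
  have hmem : f s' ∈ V := by
    rw [hV, Finset.mem_filter]
    refine ⟨Finset.mem_insert_of_mem (Finset.mem_image_of_mem f (mem_univ s')), ?_, ?_⟩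
    · linarith [hM.2.1, hs'.2]
    · refine hc.le.trans (Pr_mono hμ ?_)
      intro s hs
      exact hmin s (by simp; exact hs)
  have := hmax _ hmem
  simp only [id] at this
  linarith [hs'.2]

/-- Product events. -/
theorem Pr_prod {μ : S → ℝ} {ν : T → ℝ} (E : Set S) (F : Set T) (hμ : ∀ s, 0 ≤ μ s)
    (hν : ∀ s, 0 ≤ ν s) (G : Set (S × T)) (h : ∀ s ∈ E, ∀ t ∈ F, (s, t) ∈ G) :
    Pr μ E * Pr ν F ≤ Pr (fun w : S × T => μ w.1 * ν w.2) G := by
  classical
  rw [Pr_eq, Pr_eq, Pr_eq, Finset.sum_mul_sum, Fintype.sum_prod_type]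
  refine Finset.sum_le_sum fun s _ => Finset.sum_le_sum fun t _ => ?_
  by_cases h1 : s ∈ E
  · by_cases h2 : t ∈ F
    · rw [if_pos h1, if_pos h2, if_pos (h s h1 t h2)]
    · rw [if_neg h2, mul_zero]
      split_ifs
      · exact mul_nonneg (hμ s) (hν t)
      · exact le_rfl
  · rw [if_neg h1, zero_mul]
    split_ifs
    · exact mul_nonneg (hμ s) (hν t)
    · exact le_rfl

end Prob

/-- A good reference: nearly orthogonal to `n`, not small, and larger than most samples. -/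
structure GR {S : Type} [Fintype S] (μ : S → ℝ) (χ : S → Fin 2 → ℝ) (n : Fin 2 → ℝ) (A R ε dd : ℝ)
    (p : Fin 2 → ℝ) : Prop where
  ort : |∑ i, n i * p i| ≤ ε
  low : A ≤ nm p
  up : nm p ≤ R
  big : Pr μ {s | ε < |∑ i, n i * χ s i| ∨ nm p < nm (χ s)} ≤ dd

/-- One line: fine references or coarse references are good. -/
theorem exists_good {S T : Type} [Fintype S] [Fintype T] {μ : S → ℝ} {ν : T → ℝ}
    (hμ : IsLaw μ) (hν : IsLaw ν) (χ : S → Fin 2 → ℝ) (ψ : T → Fin 2 → ℝ) (n : Fin 2 → ℝ)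
    (dd p₁ ε : ℝ) (a b : ℕ) (hdd : 0 < dd)
    (h1 : Pr μ {s | (∃ i, (2 : ℝ) ^ b < |χ s i|) ∨ ε < |∑ i, n i * χ s i|} ≤ dd / 16)
    (h2 : p₁ ≤ Pr ν {t | (∃ i, (2 : ℝ) ^ (-(a : ℤ)) ≤ |ψ t i|) ∧
      (∀ i, |ψ t i| ≤ 2 ^ a) ∧ |∑ i, n i * ψ t i| ≤ ε}) :
    dd / 8 ≤ Pr μ {s | GR μ χ n ((2 : ℝ) ^ (-(a : ℤ))) (2 ^ (a + b)) ε dd (χ s)} ∨
    p₁ ≤ Pr ν {t | GR μ χ n ((2 : ℝ) ^ (-(a : ℤ))) (2 ^ (a + b)) ε dd (ψ t)} := by
  classical
  by_cases hc : dd / 4 ≤ Pr μ {s | (2 : ℝ) ^ (-(a : ℤ)) ≤ nm (χ s)}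
  · left
    obtain ⟨M, hM1, hM2, hM3⟩ := quant hμ.nonneg (fun s => nm (χ s)) (dd / 4)
      ((2 : ℝ) ^ (-(a : ℤ))) (by positivity) hc
    have hu := Pr_union hμ.nonneg
      {s | GR μ χ n ((2 : ℝ) ^ (-(a : ℤ))) (2 ^ (a + b)) ε dd (χ s)}
      {s | (∃ i, (2 : ℝ) ^ b < |χ s i|) ∨ ε < |∑ i, n i * χ s i|} {s | M ≤ nm (χ s)} ?_
    · linarith
    · intro s hs
      by_cases hb : s ∈ {s | (∃ i, (2 : ℝ) ^ b < |χ s i|) ∨ ε < |∑ i, n i * χ s i|}
      · exact Or.inr hb
      · left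
        simp only [Set.mem_ofPred_eq, not_or, not_exists, not_lt] at hb
        refine ⟨hb.2, hM1.trans hs, ?_, ?_⟩
        · refine (nm_le hb.1).trans ?_
          exact pow_le_pow_right₀ (by norm_num) (Nat.le_add_left b a)
        · refine (Pr_union hμ.nonneg
            {s | (∃ i, (2 : ℝ) ^ b < |χ s i|) ∨ ε < |∑ i, n i * χ s i|} {s | M < nm (χ s)} _
            ?_).trans (by linarith)
          rintro s' (h | h)
          · exact Or.inl (Or.inr h)
          · exact Or.inr (lt_of_le_of_lt hs h)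
  · right
    push Not at hc
    refine h2.trans (Pr_mono hν.nonneg ?_)
    rintro t ⟨⟨i, hi⟩, ht2, ht3⟩
    refine ⟨ht3, hi.trans (le_nm _ i), ?_, ?_⟩
    · refine (nm_le ht2).trans ?_
      exact pow_le_pow_right₀ (by norm_num) (Nat.le_add_right a b)
    · refine (Pr_union hμ.nonneg
        {s | (∃ i, (2 : ℝ) ^ b < |χ s i|) ∨ ε < |∑ i, n i * χ s i|}
        {s | (2 : ℝ) ^ (-(a : ℤ)) ≤ nm (χ s)} _ ?_).trans (by linarith)
      rintro s' (h | h)
      · exact Or.inl (Or.inr h)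
      · exact Or.inr ((hi.trans (le_nm _ i)).trans h.le)

/-- The matrix of the coordinates with respect to `p`, `q`. -/
noncomputable def Mx (p q : Fin 2 → ℝ) (i j : Fin 2) : ℝ :=
  if i = 0 then (if j = 0 then q 1 else -q 0) / wd p q
  else (if j = 0 then -p 1 else p 0) / wd p q

/-- The inverse matrix. -/
def Mi (p q : Fin 2 → ℝ) (i j : Fin 2) : ℝ := if j = 0 then p i else q i

theorem zc_Mx (p q v : Fin 2 → ℝ) :
    zc (Mx p q) v 0 = wd v q / wd p q ∧ zc (Mx p q) v 1 = wd p v / wd p q := by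
  unfold zc Mx wd
  rw [Fin.sum_univ_two, Fin.sum_univ_two]
  constructor
  · simp
    ring
  · simp
    ring

theorem Mx_zok {p q : Fin 2 → ℝ} {R W : ℝ} {k : ℕ} (hp : nm p ≤ R) (hq : nm q ≤ R) (hW : 0 < W)
    (hw : W ≤ |wd p q|) (hR : 0 ≤ R) (hk1 : R ≤ 2 ^ k) (hk2 : R / W ≤ 2 ^ k) :
    ZOK k (Mx p q) ∧ zc (Mx p q) p = Pi.single 0 1 ∧ zc (Mx p q) q = Pi.single 1 1 := by
  have hw0 : 0 < |wd p q| := by linarith
  have hne : wd p q ≠ 0 := abs_pos.1 hw0
  have hpp : wd p p = 0 := by unfold wd; ring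
  have hqq : wd q q = 0 := by unfold wd; ring
  refine ⟨⟨?_, Mi p q, ?_, ?_, ?_⟩, ?_, ?_⟩
  · have hx : ∀ x : ℝ, |x| ≤ R → |x / wd p q| ≤ 2 ^ k := by
      intro x hx
      rw [abs_div]
      refine le_trans ?_ hk2
      exact div_le_div₀ hR hx hW hw
    intro i j
    have p0 := (le_nm p 0).trans hp
    have p1 := (le_nm p 1).trans hp
    have q0 := (le_nm q 0).trans hq
    have q1 := (le_nm q 1).trans hq
    unfold Mx
    split_ifs
    · exact hx _ q1
    · exact hx _ (by rwa [abs_neg])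
    · exact hx _ (by rwa [abs_neg])
    · exact hx _ p0
  · intro i j
    unfold Mi
    split_ifs
    · exact ((le_nm p i).trans hp).trans hk1
    · exact ((le_nm q i).trans hq).trans hk1
  · intro v
    funext i
    obtain ⟨e0, e1⟩ := zc_Mx p q v
    have e2 : zc (Mi p q) (zc (Mx p q) v) i = p i * (wd v q / wd p q) + q i * (wd p v / wd p q) := by
      conv_lhs => unfold zc
      rw [Fin.sum_univ_two]
      have a0 : ∑ j, Mx p q 0 j * v j = wd v q / wd p q := e0
      have a1 : ∑ j, Mx p q 1 j * v j = wd p v / wd p q := e1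
      rw [a0, a1]
      simp [Mi]
    rw [e2]
    field_simp
    fin_cases i
    · simp [wd]
      ring
    · simp [wd]
      ring
  · intro v
    have e0 : zc (Mi p q) v 0 = p 0 * v 0 + q 0 * v 1 := by
      unfold zc Mi
      rw [Fin.sum_univ_two]
      simp
    have e1 : zc (Mi p q) v 1 = p 1 * v 0 + q 1 * v 1 := by
      unfold zc Mi
      rw [Fin.sum_univ_two]
      simp
    obtain ⟨f0, f1⟩ := zc_Mx p q (zc (Mi p q) v)
    funext i
    fin_cases i
    · simp only [Fin.zero_eta]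
      rw [f0, div_eq_iff hne]
      unfold wd
      rw [e0, e1]
      ring
    · simp only [Fin.mk_one]
      rw [f1, div_eq_iff hne]
      unfold wd
      rw [e0, e1]
      ring
  · obtain ⟨f0, f1⟩ := zc_Mx p q p
    funext i
    fin_cases i
    · simp only [Fin.zero_eta]
      rw [f0, div_self hne]
      simp
    · simp only [Fin.mk_one]
      rw [f1, hpp, zero_div]
      simp
  · obtain ⟨f0, f1⟩ := zc_Mx p q q
    funext i
    fin_cases i
    · simp only [Fin.zero_eta]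
      rw [f0, hqq, zero_div]
      simp
    · simp only [Fin.mk_one]
      rw [f1, div_self hne]
      simp

/-- The coordinates are unique. -/
theorem zc_of {p q : Fin 2 → ℝ} (hne : wd p q ≠ 0) {M : Fin 2 → Fin 2 → ℝ}
    (hp : zc M p = Pi.single 0 1) (hq : zc M q = Pi.single 1 1) (v : Fin 2 → ℝ) :
    zc M v 0 = wd v q / wd p q ∧ zc M v 1 = wd p v / wd p q := by
  have hv : ∀ i, v i = wd v q / wd p q * p i + wd p v / wd p q * q i := by
    intro i
    field_simp
    fin_cases i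
    · simp [wd]
      ring
    · simp [wd]
      ring
  have hl : ∀ i, zc M v i = wd v q / wd p q * zc M p i + wd p v / wd p q * zc M q i := by
    intro i
    unfold zc
    rw [Finset.mul_sum, Finset.mul_sum, ← Finset.sum_add_distrib]
    refine Finset.sum_congr rfl fun j _ => ?_
    conv_lhs => rw [hv j]
    ring
  constructor
  · rw [hl, hp, hq]
    simp
  · rw [hl, hp, hq]
    simp

/-- **GEOD.** -/
theorem geod_thm : GEODStmt := by
  intro dd p₁ hdd hp₁
  refine ⟨min (dd / 8) p₁ ^ 2, 13, by positivity, ?_⟩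
  intro S T _ _ μ ν χ ψ n a b B hμ hν ha hb hB hn hw h1 h2 ok
  set A : ℝ := (2 : ℝ) ^ (-(a : ℤ)) with hA
  set ε : ℝ := (2 : ℝ) ^ (-(B : ℤ)) with hε
  have hA0 : 0 < A := by positivity
  have hε0 : 0 < ε := by positivity
  have hA1 : A ≤ 1 := by
    rw [hA]
    exact zpow_le_one_of_nonpos₀ (by norm_num) (by omega)
  have hA3 : A ^ 3 = (2 : ℝ) ^ (-(3 * a : ℤ)) := by
    rw [hA, ← zpow_natCast, ← zpow_mul]
    congr 1
    push_cast
    ring
  have hεA : 1024 * ε ≤ A ^ 3 := by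
    rw [hA3, hε, show (1024 : ℝ) = 2 ^ (10 : ℤ) by norm_num, ← zpow_add₀ (by norm_num)]
    refine zpow_le_zpow_right₀ (by norm_num) ?_
    push_cast
    omega
  -- the main lemma
  have key : ∀ p q, GR (μ 0) (χ 0) (n 0) A (2 ^ (a + b)) ε dd p →
      GR (μ 1) (χ 1) (n 1) A (2 ^ (a + b)) ε dd q → ok p q := by
    intro p q gp gq
    have hw' : A ≤ |wd (n 0) (n 1)| := hw
    have hw'' : A ≤ |wd (n 1) (n 0)| := by
      have : wd (n 1) (n 0) = -wd (n 0) (n 1) := by
        unfold wd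
        ring
      rw [this, abs_neg]
      exact hw'
    have s0 := fun v hv hv1 => coords hA0 hA1 hε0.le hεA (n 0) (n 1) p q v (hn 0).1 (hn 0).2
      (hn 1).1 (hn 1).2 hw' gp.ort gp.low gq.ort gq.low hv hv1
    have s1 := fun v hv hv1 => coords hA0 hA1 hε0.le hεA (n 1) (n 0) q p v (hn 1).1 (hn 1).2
      (hn 0).1 (hn 0).2 hw'' gq.ort gq.low gp.ort gp.low hv hv1
    have hW := (s0 p gp.ort le_rfl).1
    have hW0 : 0 < A ^ 3 / 8 := by positivity
    have hne : wd p q ≠ 0 := abs_pos.1 (by linarith)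
    have hanti : ∀ x y, wd x y = -wd y x := by
      intro x y
      unfold wd
      ring
    have hz := Mx_zok (k := 13 * (a + b)) gp.up gq.up hW0 hW (by positivity)
      (pow_le_pow_right₀ (by norm_num) (by omega)) (by
        rw [div_le_iff₀ hW0, hA3]
        have e : (2 : ℝ) ^ (13 * (a + b)) * ((2 : ℝ) ^ (-(3 * a : ℤ)) / 8) =
            (2 : ℝ) ^ ((13 * (a + b) : ℕ) + (-(3 * a : ℤ)) - 3 : ℤ) := by
          rw [zpow_sub₀ (by norm_num), zpow_add₀ (by norm_num), zpow_natCast]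
          norm_num
          ring
        rw [e, ← zpow_natCast]
        refine zpow_le_zpow_right₀ (by norm_num) ?_
        push_cast
        omega)
    refine ⟨⟨Mx p q, hz⟩, ?_⟩
    intro M hMp hMq k
    -- the samples
    have hbad : ∀ k : Fin 2, ∀ s, s ∈ {s | ∃ i, (2 : ℝ) ^ 2 < |zc M (χ k s) i|} →
        (if k = 0 then (ε < |∑ i, n 0 i * χ k s i| ∨ nm p < nm (χ k s))
          else (ε < |∑ i, n 1 i * χ k s i| ∨ nm q < nm (χ k s))) := by
      intro k s hs
      obtain ⟨i, hi⟩ := hs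
      obtain ⟨z0, z1⟩ := zc_of hne hMp hMq (χ k s)
      have hwpos : 0 < |wd p q| := abs_pos.2 hne
      have conv : ∀ x, |x| ≤ 4 * |wd p q| → |x / wd p q| ≤ 2 ^ 2 := by
        intro x hx
        rw [abs_div, div_le_iff₀ hwpos]
        linarith
      split_ifs with hk
      · by_contra hcon
        rw [not_or, not_lt, not_lt] at hcon
        obtain ⟨-, c1, c2⟩ := s0 (χ k s) hcon.1 hcon.2
        have h3 : |zc M (χ k s) i| ≤ 2 ^ 2 := by
          fin_cases i
          · simp only [Fin.zero_eta]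
            rw [z0]
            exact conv _ c1
          · simp only [Fin.mk_one]
            rw [z1]
            exact conv _ c2
        linarith
      · by_contra hcon
        rw [not_or, not_lt, not_lt] at hcon
        obtain ⟨-, c1, c2⟩ := s1 (χ k s) hcon.1 hcon.2
        rw [hanti q p, abs_neg] at c1 c2
        rw [hanti (χ k s) p, abs_neg] at c1
        rw [hanti q (χ k s), abs_neg] at c2
        have h3 : |zc M (χ k s) i| ≤ 2 ^ 2 := by
          fin_cases i
          · simp only [Fin.zero_eta]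
            rw [z0]
            exact conv _ c2
          · simp only [Fin.mk_one]
            rw [z1]
            exact conv _ c1
        linarith
    fin_cases k
    · refine (Pr_mono (hμ 0).nonneg ?_).trans gp.big
      intro s hs
      have := hbad 0 s hs
      rwa [if_pos rfl] at this
    · refine (Pr_mono (hμ 1).nonneg ?_).trans gq.big
      intro s hs
      have := hbad 1 s hs
      rwa [if_neg (by decide)] at this
  have g0 := exists_good (hμ 0) (hν 0) (χ 0) (ψ 0) (n 0) dd p₁ ε a b hdd (h1 0) (h2 0)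
  have g1 := exists_good (hμ 1) (hν 1) (χ 1) (ψ 1) (n 1) dd p₁ ε a b hdd (h1 1) (h2 1)
  have m0 : 0 ≤ min (dd / 8) p₁ := by positivity
  have prod : ∀ x y : ℝ, min (dd / 8) p₁ ≤ x → min (dd / 8) p₁ ≤ y →
      min (dd / 8) p₁ ^ 2 ≤ x * y := by
    intro x y hx hy
    rw [sq]
    exact mul_le_mul hx hy m0 (m0.trans hx)
  rcases g0 with g0 | g0 <;> rcases g1 with g1 | g1
  · left
    refine (prod _ _ ((min_le_left _ _).trans g0) ((min_le_left _ _).trans g1)).trans
      (Pr_prod _ _ (hμ 0).nonneg (hμ 1).nonneg _ ?_)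
    intro s hs t ht
    exact key _ _ hs ht
  · right
    left
    refine (prod _ _ ((min_le_left _ _).trans g0) ((min_le_right _ _).trans g1)).trans
      (Pr_prod _ _ (hμ 0).nonneg (hν 1).nonneg _ ?_)
    intro s hs t ht
    exact key _ _ hs ht
  · right
    right
    left
    refine (prod _ _ ((min_le_right _ _).trans g0) ((min_le_left _ _).trans g1)).trans
      (Pr_prod _ _ (hν 0).nonneg (hμ 1).nonneg _ ?_)
    intro s hs t ht
    exact key _ _ hs ht
  · right
    right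
    right
    refine (prod _ _ ((min_le_right _ _).trans g0) ((min_le_right _ _).trans g1)).trans
      (Pr_prod _ _ (hν 0).nonneg (hν 1).nonneg _ ?_)
    intro s hs t ht
    exact key _ _ hs ht

end Pool.Agent.H1.OCV
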